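import Mathlib

/-!
The Balog-Szemeredi-Gowers theorem (graph form), and bounded generation of the span of a set of
small doubling in a group of exponent two.
-/

namespace Pool.Agent.Lib.Additive

open Finset
open scoped Pointwise

variable {G : Type*} [AddCommGroup G] [DecidableEq G]

/-- Common neighbours of `x` and `y` in `B`. -/
def cod (E : Finset (G × G)) (B : Finset G) (x y : G) : Finset G :=
  B.filter fun b => (x, b) ∈ E ∧ (y, b) ∈ E

omit [AddCommGroup G] in
lemma drc (A B : Finset G) (E : Finset (G × G)) (hE : ∀ e ∈ E, e.1 ∈ A ∧ e.2 ∈ B) {c : ℝ}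
    (hc : 0 < c) (hB : B.Nonempty) (h : c * A.card * B.card ≤ E.card) :
    ∃ U ⊆ A, c * A.card / 2 ≤ U.card ∧
      8 * (((U ×ˢ U).filter fun t => ((cod E B t.1 t.2).card : ℝ) < c ^ 2 / 16 * B.card).card : ℝ)
        ≤ (U.card : ℝ) ^ 2 := by
  classical
  let N : G → Finset G := fun b => A.filter fun a => (a, b) ∈ E
  let bad : G × G → Prop := fun t => ((cod E B t.1 t.2).card : ℝ) < c ^ 2 / 16 * B.card
  have m0 : (0 : ℝ) < B.card := by exact_mod_cast card_pos.2 hB
  have h1 : (E.card : ℝ) ≤ ∑ b ∈ B, ((N b).card : ℝ) := by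
    rw [card_eq_sum_card_fiberwise (s := E) (t := B) (f := Prod.snd) fun e he => (hE e he).2]
    push_cast
    refine sum_le_sum fun b _ => ?_
    have : (E.filter fun e => e.2 = b).card ≤ (N b).card := by
      refine card_le_card_of_injOn Prod.fst ?_ ?_
      · intro e he
        obtain ⟨he1, rfl⟩ := mem_filter.1 he
        exact mem_filter.2 ⟨(hE e he1).1, he1⟩
      · intro e he e' he' hh
        exact Prod.ext hh ((mem_filter.1 he).2.trans (mem_filter.1 he').2.symm)
    exact_mod_cast this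
  have h2 : (∑ b ∈ B, ((N b).card : ℝ)) ^ 2 ≤ B.card * ∑ b ∈ B, ((N b).card : ℝ) ^ 2 :=
    sq_sum_le_card_mul_sum_sq
  have h3 : c ^ 2 * (A.card : ℝ) ^ 2 * B.card ≤ ∑ b ∈ B, ((N b).card : ℝ) ^ 2 := by
    have a0 : 0 ≤ c * A.card * B.card := by positivity
    have a1 : (c * A.card * B.card) ^ 2 ≤ (∑ b ∈ B, ((N b).card : ℝ)) ^ 2 := by
      gcongr
      exact h.trans h1
    refine le_of_mul_le_mul_left ?_ m0
    nlinarith
  have h4 : ∑ b ∈ B, (((N b ×ˢ N b).filter bad).card : ℝ) ≤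
      c ^ 2 / 16 * B.card * (A.card : ℝ) ^ 2 := by
    have e1 : ∀ b ∈ B, (((N b ×ˢ N b).filter bad).card : ℝ) =
        ∑ t ∈ (A ×ˢ A).filter bad, if (t.1, b) ∈ E ∧ (t.2, b) ∈ E then (1 : ℝ) else 0 := by
      intro b _
      rw [sum_boole]
      congr 2
      ext t
      simp only [N, mem_filter, mem_product]
      tauto
    rw [sum_congr rfl e1, sum_comm]
    calc _ ≤ ∑ _t ∈ (A ×ˢ A).filter bad, c ^ 2 / 16 * B.card := by
          refine sum_le_sum fun t ht => ?_
          rw [sum_boole]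
          exact (mem_filter.1 ht).2.le
      _ ≤ _ := by
          rw [sum_const, nsmul_eq_mul, mul_comm]
          gcongr
          have : ((A ×ˢ A).filter bad).card ≤ (A ×ˢ A).card := card_filter_le _ _
          rw [card_product] at this
          rw [sq (A.card : ℝ)]
          exact_mod_cast this
  obtain ⟨b, -, hb⟩ := exists_le_of_sum_le (s := B)
    (f := fun _ => c ^ 2 * (A.card : ℝ) ^ 2 / 2)
    (g := fun b => ((N b).card : ℝ) ^ 2 - 8 * (((N b ×ˢ N b).filter bad).card : ℝ)) hB (by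
      rw [sum_sub_distrib, ← mul_sum, sum_const, nsmul_eq_mul]
      nlinarith)
  have b0 : (0 : ℝ) ≤ ((N b ×ˢ N b).filter bad).card := by positivity
  have a0 : 0 ≤ c ^ 2 * (A.card : ℝ) ^ 2 := by positivity
  refine ⟨N b, filter_subset _ _, ?_, by linarith⟩
  refine le_of_sq_le_sq ?_ (by positivity)
  nlinarith

/-- Balog-Szemeredi-Gowers, graph form: if a dense bipartite graph `E` on `A × B` has all its
differences in `D`, then a large part of `A` has a small difference set. -/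
theorem bsg (A B D : Finset G) (E : Finset (G × G))
    (hE : ∀ e ∈ E, e.1 ∈ A ∧ e.2 ∈ B ∧ e.1 - e.2 ∈ D) {c : ℝ}
    (hc : 0 < c) (hA : A.Nonempty) (hB : B.Nonempty) (h : c * A.card * B.card ≤ E.card) :
    ∃ A' ⊆ A, c * A.card / 4 ≤ A'.card ∧
      ((A' - A').card : ℝ) * (c ^ 5 * A.card * (B.card : ℝ) ^ 2) ≤ 1024 * (D.card : ℝ) ^ 4 := by
  classical
  obtain ⟨U, hUA, hU, hbad⟩ := drc A B E (fun e he => ⟨(hE e he).1, (hE e he).2.1⟩) hc hB h
  set th : ℝ := c ^ 2 / 16 * B.card with hth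
  have th0 : 0 ≤ th := by positivity
  let bd : G → Finset G := fun x => U.filter fun y => ((cod E B x y).card : ℝ) < th
  have n0 : (0 : ℝ) < A.card := by exact_mod_cast card_pos.2 hA
  have u0 : (0 : ℝ) < U.card := lt_of_lt_of_le (by positivity) hU
  have e1 : (((U ×ˢ U).filter fun t => ((cod E B t.1 t.2).card : ℝ) < th).card : ℝ)
      = ∑ x ∈ U, ((bd x).card : ℝ) := by
    simp only [bd, card_filter]
    push_cast
    rw [sum_product]
  rw [e1] at hbad
  set A' := U.filter fun x => 4 * ((bd x).card : ℝ) ≤ U.card with hA'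
  have hsplit := card_filter_add_card_filter_not (s := U) fun x => 4 * ((bd x).card : ℝ) ≤ U.card
  have e2 : ((U.filter fun x => ¬ 4 * ((bd x).card : ℝ) ≤ U.card).card : ℝ) * (U.card / 4)
      ≤ ∑ x ∈ U, ((bd x).card : ℝ) := by
    calc _ = ∑ _x ∈ U.filter fun x => ¬ 4 * ((bd x).card : ℝ) ≤ U.card, (U.card / 4 : ℝ) := by
          rw [sum_const, nsmul_eq_mul]
      _ ≤ ∑ x ∈ U.filter fun x => ¬ 4 * ((bd x).card : ℝ) ≤ U.card, ((bd x).card : ℝ) :=
          sum_le_sum fun x hx => by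
            have := not_le.1 (mem_filter.1 hx).2
            linarith
      _ ≤ _ := sum_le_sum_of_subset_of_nonneg (filter_subset _ _) fun _ _ _ => by positivity
  have e3 : (U.card : ℝ) / 2 ≤ A'.card := by
    have a1 : (A'.card : ℝ) + (U.filter fun x => ¬ 4 * ((bd x).card : ℝ) ≤ U.card).card
        = U.card := by rw [← Nat.cast_add, hA', hsplit]
    have a2 : ((U.filter fun x => ¬ 4 * ((bd x).card : ℝ) ≤ U.card).card : ℝ) ≤ U.card / 2 := by
      refine le_of_mul_le_mul_right ?_ u0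
      nlinarith
    linarith
  refine ⟨A', (filter_subset _ _).trans hUA, by linarith, ?_⟩
  let g : G × G × G × G → G := fun t => t.1 - t.2.1 + t.2.2.1 - t.2.2.2
  have fib : ∀ d ∈ A' - A', (U.card / 2 : ℝ) * th ^ 2 ≤
      ((D ×ˢ D ×ˢ D ×ˢ D).filter fun t => g t = d).card := by
    intro d hd
    obtain ⟨x, hx, y, hy, rfl⟩ := mem_sub.1 hd
    have hx' := (mem_filter.1 hx).2
    have hy' := (mem_filter.1 hy).2
    have c1 : (U.sigma fun w => cod E B x w ×ˢ cod E B y w).card ≤
        ((D ×ˢ D ×ˢ D ×ˢ D).filter fun t => g t = x - y).card := by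
      refine card_le_card_of_injOn
        (fun s => (x - s.2.1, s.1 - s.2.1, s.1 - s.2.2, y - s.2.2)) ?_ ?_
      · rintro ⟨w, b, b'⟩ hs
        obtain ⟨-, hs⟩ := mem_sigma.1 hs
        obtain ⟨h1, h2⟩ := mem_product.1 hs
        obtain ⟨-, h11, h12⟩ := mem_filter.1 h1
        obtain ⟨-, h21, h22⟩ := mem_filter.1 h2
        refine mem_filter.2 ⟨?_, ?_⟩
        · simp only [mem_product]
          exact ⟨(hE _ h11).2.2, (hE _ h12).2.2, (hE _ h22).2.2, (hE _ h21).2.2⟩
        · simp only [g]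
          abel
      · rintro ⟨w, b, b'⟩ - ⟨w2, b2, b2'⟩ - hh
        simp only [Prod.mk.injEq, sub_right_inj] at hh
        obtain ⟨rfl, h2, -, rfl⟩ := hh
        rw [sub_left_inj] at h2
        subst h2
        rfl
    rw [card_sigma] at c1
    have c2 : ((U \ (bd x ∪ bd y)).card : ℝ) * th ^ 2 ≤
        ∑ w ∈ U, ((cod E B x w ×ˢ cod E B y w).card : ℝ) := by
      calc _ = ∑ _w ∈ U \ (bd x ∪ bd y), th ^ 2 := by rw [sum_const, nsmul_eq_mul]
        _ ≤ ∑ w ∈ U \ (bd x ∪ bd y), ((cod E B x w ×ˢ cod E B y w).card : ℝ) := by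
            refine sum_le_sum fun w hw => ?_
            obtain ⟨w1, w2⟩ := mem_sdiff.1 hw
            rw [mem_union, not_or] at w2
            have a1 : th ≤ (cod E B x w).card := by
              by_contra hh
              exact w2.1 (mem_filter.2 ⟨w1, not_le.1 hh⟩)
            have a2 : th ≤ (cod E B y w).card := by
              by_contra hh
              exact w2.2 (mem_filter.2 ⟨w1, not_le.1 hh⟩)
            rw [card_product, sq]
            push_cast
            exact mul_le_mul a1 a2 th0 (by positivity)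
        _ ≤ _ := sum_le_sum_of_subset_of_nonneg sdiff_subset fun _ _ _ => by positivity
    have c3 : U.card ≤ (U \ (bd x ∪ bd y)).card + ((bd x).card + (bd y).card) :=
      (card_le_card_sdiff_add_card).trans (by gcongr; exact card_union_le _ _)
    have c4 : (U.card : ℝ) ≤ (U \ (bd x ∪ bd y)).card + ((bd x).card + (bd y).card) := by
      exact_mod_cast c3
    have c5 : (U.card / 2 : ℝ) ≤ (U \ (bd x ∪ bd y)).card := by linarith
    have c6 : ((∑ w ∈ U, (cod E B x w ×ˢ cod E B y w).card : ℕ) : ℝ) ≤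
        ((D ×ˢ D ×ˢ D ×ˢ D).filter fun t => g t = x - y).card := by exact_mod_cast c1
    rw [Nat.cast_sum] at c6
    calc _ ≤ ((U \ (bd x ∪ bd y)).card : ℝ) * th ^ 2 := by gcongr
      _ ≤ _ := c2.trans c6
  have tot : ∑ d ∈ A' - A', (((D ×ˢ D ×ˢ D ×ˢ D).filter fun t => g t = d).card : ℝ)
      ≤ (D.card : ℝ) ^ 4 := by
    rw [← Nat.cast_sum, sum_card_fiberwise_eq_card_filter]
    have := card_filter_le (D ×ˢ D ×ˢ D ×ˢ D) fun t => g t ∈ A' - A'
    simp only [card_product] at this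
    calc _ ≤ ((D.card * (D.card * (D.card * D.card)) : ℕ) : ℝ) := by exact_mod_cast this
      _ = _ := by push_cast; ring
  have tot2 : ((A' - A').card : ℝ) * ((U.card / 2 : ℝ) * th ^ 2) ≤ (D.card : ℝ) ^ 4 := by
    refine le_trans ?_ tot
    rw [← nsmul_eq_mul, ← sum_const]
    exact sum_le_sum fib
  have e4 : c ^ 5 * A.card * (B.card : ℝ) ^ 2 ≤ 1024 * ((U.card / 2 : ℝ) * th ^ 2) := by
    have : c ^ 5 * A.card * (B.card : ℝ) ^ 2 = 1024 * ((c * A.card / 2 / 2) * th ^ 2) := by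
      rw [hth]; ring
    rw [this]
    gcongr
  calc _ ≤ ((A' - A').card : ℝ) * (1024 * ((U.card / 2 : ℝ) * th ^ 2)) := by gcongr
    _ ≤ _ := by linarith

/-- `v` is a sum of at most `k` elements of `A`. -/
def SumLe (A : Set G) (k : ℕ) (v : G) : Prop :=
  ∃ l : Multiset G, l.card ≤ k ∧ (∀ x ∈ l, x ∈ A) ∧ l.sum = v

omit [DecidableEq G] in
lemma SumLe.zero (A : Set G) (k : ℕ) : SumLe A k 0 := ⟨0, by simp, by simp, rfl⟩

omit [DecidableEq G] in
lemma SumLe.single {A : Set G} {a : G} (ha : a ∈ A) : SumLe A 1 a :=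
  ⟨{a}, by simp, by simpa using ha, by simp⟩

omit [DecidableEq G] in
lemma SumLe.add {A : Set G} {j k : ℕ} {u v : G} (hu : SumLe A j u) (hv : SumLe A k v) :
    SumLe A (j + k) (u + v) := by
  obtain ⟨l, l1, l2, rfl⟩ := hu
  obtain ⟨m, m1, m2, rfl⟩ := hv
  refine ⟨l + m, by rw [Multiset.card_add]; omega, ?_, Multiset.sum_add _ _⟩
  intro x hx
  rcases Multiset.mem_add.1 hx with h | h
  exacts [l2 x h, m2 x h]

omit [DecidableEq G] in
lemma SumLe.mono {A B : Set G} {j k : ℕ} {v : G} (h : SumLe A j v) (hAB : A ⊆ B) (hjk : j ≤ k) :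
    SumLe B k v := by
  obtain ⟨l, l1, l2, l3⟩ := h
  exact ⟨l, l1.trans hjk, fun x hx => hAB (l2 x hx), l3⟩

lemma SumLe.sum {A : Set G} {k : ℕ} (T : Finset G) (h : ∀ x ∈ T, SumLe A k x) :
    SumLe A (k * T.card) (∑ x ∈ T, x) := by
  induction T using Finset.induction_on with
  | empty => simpa using SumLe.zero A 0
  | insert a T ha ih =>
    rw [sum_insert ha, card_insert_of_notMem ha, mul_add, mul_one, add_comm (k * T.card)]
    exact (h a (mem_insert_self _ _)).add (ih fun x hx => h x (mem_insert_of_mem hx))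

/-- In a group of exponent two, the subgroup generated by a set of doubling `K` consists of sums
of boundedly many elements of the set. -/
theorem span_of_doubling (h2 : ∀ x : G, x + x = 0) (A : Finset G) (hA : A.Nonempty) {K : ℝ}
    (hK : ((A - A).card : ℝ) ≤ K * A.card) {k : ℕ} (hk : K ^ 4 ≤ k) :
    ∀ v ∈ AddSubgroup.closure (A : Set G), SumLe (A : Set G) (3 * k + 2) v := by
  have n0 : (0 : ℝ) < A.card := by exact_mod_cast card_pos.2 hA
  have neg : ∀ x : G, -x = x := fun x => neg_eq_of_add_eq_zero_right (h2 x)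
  have p1 := pluennecke_ruzsa_inequality_nsmul_sub hA A 4
  have p2 : (((4 • A).card : ℕ) : ℝ) ≤ (((A - A).card : ℝ) / A.card) ^ 4 * A.card := by
    have := (NNRat.cast_le (K := ℝ)).2 p1
    push_cast at this
    exact this
  have p3 : ((3 • A + A).card : ℝ) ≤ K ^ 4 * A.card := by
    rw [← succ_nsmul]
    refine p2.trans ?_
    gcongr
    rwa [div_le_iff₀ n0]
  obtain ⟨F, hF, hFc, hcov⟩ := ruzsa_covering_add hA p3
  have hFk : F.card ≤ k := by exact_mod_cast hFc.trans hk
  have three : ∀ a ∈ A, ∀ b ∈ A, ∀ c ∈ A, a + b + c ∈ 3 • A := by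
    intro a ha b hb c hc
    rw [succ_nsmul, succ_nsmul, one_nsmul]
    exact add_mem_add (add_mem_add ha hb) hc
  have three' : ∀ f ∈ 3 • A, SumLe (A : Set G) 3 f := by
    intro f hf
    rw [succ_nsmul, succ_nsmul, one_nsmul] at hf
    obtain ⟨u, hu, c, hc, rfl⟩ := mem_add.1 hf
    obtain ⟨a, ha, b, hb, rfl⟩ := mem_add.1 hu
    exact ((SumLe.single ha).add (SumLe.single hb)).add (SumLe.single hc)
  let S : Set G := {v | ∃ T ⊆ F, ∃ a ∈ A, ∃ a' ∈ A, v = ∑ x ∈ T, x + a + a'}
  have step : ∀ c ∈ A, ∀ s ∈ S, s + c ∈ S := by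
    rintro c hc s ⟨T, hT, a, ha, a', ha', rfl⟩
    obtain ⟨f, hf, d, hd, e⟩ := mem_add.1 (hcov (three a ha a' ha' c hc))
    obtain ⟨b, hb, b', hb', rfl⟩ := mem_sub.1 hd
    rw [sub_eq_add_neg, neg] at e
    have e2 : ∑ x ∈ T, x + a + a' + c = (∑ x ∈ T, x + f) + b + b' := by
      calc _ = ∑ x ∈ T, x + (a + a' + c) := by abel
        _ = _ := by rw [← e]; abel
    by_cases hfT : f ∈ T
    · refine ⟨T.erase f, (erase_subset _ _).trans hT, b, hb, b', hb', ?_⟩
      rw [e2, ← sum_erase_add _ _ hfT, add_assoc _ f f, h2, add_zero]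
    · refine ⟨insert f T, insert_subset hf hT, b, hb, b', hb', ?_⟩
      rw [e2, sum_insert hfT, add_comm f]
  have all : ∀ v ∈ AddSubgroup.closure (A : Set G), ∀ s ∈ S, s + v ∈ S := by
    intro v hv
    induction hv using AddSubgroup.closure_induction with
    | mem x hx => exact step x hx
    | zero => intro s hs; simpa using hs
    | add x y _ _ hx hy => intro s hs; rw [← add_assoc]; exact hy _ (hx s hs)
    | neg x _ hx => rw [neg]; exact hx
  intro v hv
  obtain ⟨a0, ha0⟩ := hA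
  have z : (0 : G) ∈ S := ⟨∅, empty_subset _, a0, ha0, a0, ha0, by simp [h2]⟩
  have := all v hv 0 z
  rw [zero_add] at this
  obtain ⟨T, hT, a, ha, a', ha', rfl⟩ := this
  have s1 := SumLe.sum (A := (A : Set G)) (k := 3) T fun x hx => three' x (hF (hT hx))
  refine ((s1.add (SumLe.single ha)).add (SumLe.single ha')).mono subset_rfl ?_
  have := card_le_card hT
  omega

/-- A set with many additive triples in a group of exponent two has a large subset whose span is
boundedly generated. -/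
theorem triples_span {c : ℝ} (hc : 0 < c) : ∃ k : ℕ, ∀ (G : Type) [AddCommGroup G] [DecidableEq G],
    (∀ x : G, x + x = 0) → ∀ B : Finset G, B.Nonempty →
    c * (B.card : ℝ) ^ 2 ≤ ((B ×ˢ B).filter fun e => e.1 + e.2 ∈ B).card →
    ∃ A ⊆ B, c * B.card / 4 ≤ A.card ∧
      ∀ v ∈ AddSubgroup.closure (A : Set G), SumLe (A : Set G) k v := by
  refine ⟨3 * ⌈(4096 / c ^ 6) ^ 4⌉₊ + 2, ?_⟩
  intro G _ _ h2 B hB h
  have neg : ∀ x : G, -x = x := fun x => neg_eq_of_add_eq_zero_right (h2 x)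
  have n0 : (0 : ℝ) < B.card := by exact_mod_cast card_pos.2 hB
  obtain ⟨A, hAB, h1, h3⟩ := bsg B B B ((B ×ˢ B).filter fun e => e.1 + e.2 ∈ B) (by
    intro e he
    obtain ⟨e1, e2⟩ := mem_filter.1 he
    obtain ⟨e3, e4⟩ := mem_product.1 e1
    exact ⟨e3, e4, by rwa [sub_eq_add_neg, neg]⟩) hc hB hB (by nlinarith)
  have a0 : (0 : ℝ) < A.card := lt_of_lt_of_le (by positivity) h1
  have hA : A.Nonempty := by
    rw [← card_pos]
    exact_mod_cast a0
  refine ⟨A, hAB, h1, span_of_doubling h2 A hA (K := 4096 / c ^ 6) ?_ (Nat.le_ceil _)⟩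
  have p : 0 < c ^ 5 * B.card * (B.card : ℝ) ^ 2 := by positivity
  refine le_of_mul_le_mul_right (h3.trans ?_) p
  calc 1024 * (B.card : ℝ) ^ 4
      = 4096 / c ^ 6 * (c * B.card / 4) * (c ^ 5 * B.card * (B.card : ℝ) ^ 2) := by
        field_simp
        ring
    _ ≤ _ := by gcongr

end Pool.Agent.Lib.Additive
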