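import Mathlib

/-!
Kneser's addition theorem for finite abelian groups (proof of DeVos).
-/

open Finset
open scoped Pointwise

namespace Pool.Agent.Lib.Kneser

variable {G : Type*} [AddCommGroup G] [Fintype G] [DecidableEq G]

/-- The stabiliser (period) of a finite set. -/
def stab (C : Finset G) : Finset G := univ.filter (fun g => ∀ x ∈ C, g + x ∈ C)

lemma mem_stab {C : Finset G} {g : G} : g ∈ stab C ↔ ∀ x ∈ C, g + x ∈ C := by simp [stab]

lemma zero_mem_stab (C : Finset G) : (0 : G) ∈ stab C := by simp [mem_stab]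

lemma add_mem_stab {C : Finset G} {g h : G} (hg : g ∈ stab C) (hh : h ∈ stab C) :
    g + h ∈ stab C := by
  rw [mem_stab] at *
  intro x hx
  rw [add_assoc]
  exact hg _ (hh x hx)

lemma neg_mem_stab {C : Finset G} {g : G} (hg : g ∈ stab C) : -g ∈ stab C := by
  rw [mem_stab] at *
  have h1 : C.image (g + ·) ⊆ C := by
    intro y hy
    obtain ⟨x, hx, rfl⟩ := mem_image.1 hy
    exact hg x hx
  have h2 : C.image (g + ·) = C :=
    eq_of_subset_of_card_le h1 (by rw [card_image_of_injective _ (add_right_injective g)])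
  intro x hx
  rw [← h2] at hx
  obtain ⟨y, hy, rfl⟩ := mem_image.1 hx
  simpa using hy

lemma sub_mem_stab {C : Finset G} {g h : G} (hg : g ∈ stab C) (hh : h ∈ stab C) :
    g - h ∈ stab C := by
  rw [sub_eq_add_neg]
  exact add_mem_stab hg (neg_mem_stab hh)

/-- The coset `a + H`. -/
def cos (H : Finset G) (a : G) : Finset G := univ.filter (fun x => x - a ∈ H)

lemma mem_cos {H : Finset G} {a x : G} : x ∈ cos H a ↔ x - a ∈ H := by simp [cos]

lemma card_cos (H : Finset G) (a : G) : #(cos H a) = #H := by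
  have : cos H a = H.image (· + a) := by
    ext x
    simp only [mem_cos, mem_image]
    constructor
    · intro h
      exact ⟨_, h, by simp⟩
    · rintro ⟨y, hy, rfl⟩
      simpa using hy
  rw [this, card_image_of_injective _ (add_left_injective a)]

lemma card_stab_dvd (C : Finset G) (X : Finset G) (hX : stab C ⊆ stab X) : #(stab C) ∣ #X := by
  induction X using Finset.strongInduction with
  | H X ih =>
    rcases X.eq_empty_or_nonempty with rfl | ⟨x, hx⟩
    · simp
    have hsub : cos (stab C) x ⊆ X := by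
      intro y hy
      have := mem_stab.1 (hX (mem_cos.1 hy)) x hx
      simpa using this
    have hxc : x ∈ cos (stab C) x := by simp [mem_cos, zero_mem_stab]
    have h1 : #(stab C) ∣ #(X \ cos (stab C) x) := by
      refine ih _ (sdiff_ssubset hsub ⟨x, hxc⟩) fun g hg => mem_stab.2 fun y hy => ?_
      rw [mem_sdiff] at hy ⊢
      refine ⟨mem_stab.1 (hX hg) y hy.1, fun h => hy.2 ?_⟩
      rw [mem_cos] at h ⊢
      have := sub_mem_stab h hg
      convert this using 1
      abel
    rw [← card_sdiff_add_card_eq_card hsub, card_cos]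
    exact dvd_add h1 dvd_rfl

lemma stab_subset_stab_add_right (A B : Finset G) : stab B ⊆ stab (A + B) := by
  intro g hg
  refine mem_stab.2 fun x hx => ?_
  obtain ⟨a, ha, b, hb, rfl⟩ := mem_add.1 hx
  exact mem_add.2 ⟨a, ha, g + b, mem_stab.1 hg b hb, by abel⟩

lemma stab_subset_stab_add_left (A B : Finset G) : stab A ⊆ stab (A + B) := by
  rw [add_comm]
  exact stab_subset_stab_add_right B A

lemma stab_subset_stab_stab (C : Finset G) : stab C ⊆ stab (stab C) :=
  fun _ hg => mem_stab.2 fun _ hx => add_mem_stab hg hx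

lemma stab_subset_stab_add_stab (X C : Finset G) : stab C ⊆ stab (X + stab C) :=
  (stab_subset_stab_stab C).trans (stab_subset_stab_add_right _ _)

lemma subset_add_stab (X C : Finset G) : X ⊆ X + stab C :=
  fun x hx => mem_add.2 ⟨x, hx, 0, zero_mem_stab C, add_zero x⟩

lemma add_stab_eq {X C : Finset G} (h : stab C ⊆ stab X) : X + stab C = X := by
  refine Subset.antisymm (fun y hy => ?_) (subset_add_stab X C)
  obtain ⟨x, hx, g, hg, rfl⟩ := mem_add.1 hy
  rw [add_comm]
  exact mem_stab.1 (h hg) x hx

/-- The inequality of Kneser's theorem for the pair `A, B`. -/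
def KN (A B : Finset G) : Prop :=
  #(A + stab (A + B)) + #(B + stab (A + B)) ≤ #(A + B) + #(stab (A + B))

lemma kneser_aux (A B : Finset G)
    (IH : ∀ A' B' : Finset G, A'.Nonempty → B'.Nonempty →
      (#(A' + B') < #(A + B) ∨ (#(A' + B') = #(A + B) ∧ #(A' + stab (A' + B')) < #A)) → KN A' B')
    (hKA : stab (A + B) ⊆ stab A) (hKB : stab (A + B) ⊆ stab B)
    (hne : (A ∩ B).Nonempty) (hns : ¬ A ⊆ B) :
    #A + #B ≤ #(A + B) + #(stab (A + B)) := by
  by_contra hlt
  push Not at hlt
  set K := stab (A + B) with hK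
  set U := A ∪ B with hU
  set I := A ∩ B with hI
  have hUI : #U + #I = #A + #B := card_union_add_card_inter A B
  have hKI : K ⊆ stab I := fun g hg => mem_stab.2 fun x hx =>
    mem_inter.2 ⟨mem_stab.1 (hKA hg) x (mem_inter.1 hx).1, mem_stab.1 (hKB hg) x (mem_inter.1 hx).2⟩
  have hKU : K ⊆ stab U := fun g hg => mem_stab.2 fun x hx => by
    rcases mem_union.1 hx with h | h
    · exact mem_union_left _ (mem_stab.1 (hKA hg) x h)
    · exact mem_union_right _ (mem_stab.1 (hKB hg) x h)
  let conv : Finset G → Prop := fun C =>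
    C ⊆ A + B ∧ C.Nonempty ∧ K ⊆ stab C ∧ #I + #(U + stab C) ≤ #C + #(stab C)
  have hUne : U.Nonempty := hne.mono (inter_subset_left.trans subset_union_left)
  have hC0 : conv (I + U) := by
    have hsub : I + U ⊆ A + B := inter_add_union_subset
    refine ⟨hsub, hne.add hUne, hKI.trans (stab_subset_stab_add_left _ _), ?_⟩
    have h := IH I U hne hUne (by
      rcases (card_le_card hsub).lt_or_eq with h | h
      · exact Or.inl h
      · refine Or.inr ⟨h, ?_⟩
        rw [eq_of_subset_of_card_le hsub h.ge, add_stab_eq hKI]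
        exact card_lt_card ⟨inter_subset_left, fun h' => hns (h'.trans inter_subset_right)⟩)
    have h2 := card_le_card (subset_add_stab I (I + U))
    unfold KN at h
    omega
  obtain ⟨C, hC, hmin⟩ : ∃ C, conv C ∧ ∀ C', conv C' → #(stab C) ≤ #(stab C') := by
    classical
    obtain ⟨C, hC, hmin⟩ := exists_min_image (univ.filter conv) (fun C => #(stab C))
      ⟨I + U, by simpa using hC0⟩
    exact ⟨C, by simpa using hC, fun C' hC' => hmin C' (by simpa using hC')⟩
  obtain ⟨hCsub, hCne, hKC, hCconv⟩ := hC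
  set H := stab C with hH
  by_cases hHK : H ⊆ K
  · rw [add_stab_eq (hHK.trans hKU)] at hCconv
    have := card_le_card hCsub
    have := card_le_card hHK
    omega
  obtain ⟨h0, h0H, h0K⟩ := not_subset.1 hHK
  rw [hK, mem_stab] at h0K
  push Not at h0K
  obtain ⟨x, hx, hy⟩ := h0K
  obtain ⟨a, ha, b, hb, rfl⟩ := mem_add.1 hx
  have key : ∀ α β : G, α + β = a + b → (A ∩ cos H α).Nonempty → (B ∩ cos H β).Nonempty →
      ∃ D : Finset G, stab D ⊆ H ∧
        #(U + H) + #((A ∩ cos H α) + stab D) + #((B ∩ cos H β) + stab D) < #H + #(U + stab D) ∧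
        #(U + H) + #(A ∩ cos H α) + #(B ∩ cos H β) < #H + #(stab D) + #U ∧
        #(A ∩ cos H α) + #(B ∩ cos H β) + #(stab D) ≤ #H := by
    intro α β hαβ hA' hB'
    set A' := A ∩ cos H α with hA'def
    set B' := B ∩ cos H β with hB'def
    set D := A' + B' with hD
    have hDsub : D ⊆ A + B := add_subset_add inter_subset_left inter_subset_left
    have hDcos : ∀ d ∈ D, h0 + (a + b) - d ∈ H := by
      intro d hd
      obtain ⟨u, hu, v, hv, rfl⟩ := mem_add.1 hd
      have h1 := mem_cos.1 (mem_inter.1 hu).2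
      have h2 := mem_cos.1 (mem_inter.1 hv).2
      have := sub_mem_stab h0H (add_mem_stab h1 h2)
      convert this using 1
      rw [← hαβ]
      abel
    have hdisj : Disjoint C D := by
      refine disjoint_left.2 fun d hdC hdD => hy (hCsub ?_)
      have := mem_stab.1 (hDcos d hdD) d hdC
      simpa using this
    have hDne : D.Nonempty := hA'.add hB'
    have hDH : stab D ⊆ H := by
      intro g hg
      obtain ⟨d, hd⟩ := hDne
      have := sub_mem_stab (hDcos d hd) (hDcos _ (mem_stab.1 hg d hd))
      convert this using 1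
      abel
    have hDHlt : #(stab D) < #H := by
      refine card_lt_card ⟨hDH, fun h => hy (hDsub ?_)⟩
      obtain ⟨d, hd⟩ := hDne
      have := mem_stab.1 (h (hDcos d hd)) d hd
      simpa using this
    have hstab : stab (C ∪ D) = stab D := by
      refine Subset.antisymm (fun g hg => mem_stab.2 fun d hd => ?_)
        (fun g hg => mem_stab.2 fun d hd => ?_)
      · rcases mem_union.1 (mem_stab.1 hg d (mem_union_right _ hd)) with h | h
        · exfalso
          have h1 := mem_stab.1 (hDcos d hd) _ h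
          have h2 := mem_stab.1 (neg_mem_stab hg) _ (mem_union_left _ h1)
          refine hy (union_subset hCsub hDsub ?_)
          convert h2 using 1
          abel
        · exact h
      · rcases mem_union.1 hd with h | h
        · exact mem_union_left _ (mem_stab.1 (hDH hg) d h)
        · exact mem_union_right _ (mem_stab.1 hg d h)
    have hKD : K ⊆ stab D := by
      refine Subset.trans (fun g hg => mem_stab.2 fun u hu => ?_) (stab_subset_stab_add_left _ _)
      refine mem_inter.2 ⟨mem_stab.1 (hKA hg) u (mem_inter.1 hu).1, mem_cos.2 ?_⟩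
      have := add_mem_stab (hKC hg) (mem_cos.1 (mem_inter.1 hu).2)
      convert this using 1
      abel
    have hcard : #(C ∪ D) = #C + #D := card_union_of_disjoint hdisj
    have hle : #(C ∪ D) ≤ #(A + B) := card_le_card (union_subset hCsub hDsub)
    have hnc : #(C ∪ D) + #(stab D) < #I + #(U + stab D) := by
      by_contra hcon
      push Not at hcon
      have := hmin (C ∪ D) ⟨union_subset hCsub hDsub, hCne.mono subset_union_left,
        by rw [hstab]; exact hKD, by rw [hstab]; exact hcon⟩
      rw [hstab] at this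
      omega
    have hCpos := hCne.card_pos
    have hKN := IH A' B' hA' hB' (Or.inl (by rw [← hD]; omega))
    unfold KN at hKN
    rw [← hD] at hKN
    have e1 := card_le_card (subset_add_stab A' D)
    have e2 := card_le_card (subset_add_stab B' D)
    have e3 : #(U + stab D) ≤ #(U + H) := card_le_card (add_subset_add_left hDH)
    refine ⟨D, hDH, by omega, by omega, ?_⟩
    have d1 := card_stab_dvd D _ (stab_subset_stab_add_stab A' D)
    have d2 := card_stab_dvd D _ (stab_subset_stab_add_stab B' D)
    have d3 := card_stab_dvd D H (hDH.trans (stab_subset_stab_stab C))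
    have hlt' : #(A' + stab D) + #(B' + stab D) < #H := by omega
    have := Nat.le_of_dvd (Nat.sub_pos_of_lt hlt') (Nat.dvd_sub d3 (dvd_add d1 d2))
    omega
  have hcosU : ∀ α ∈ U, cos H α ⊆ U + H := fun α hα z hz =>
    mem_add.2 ⟨α, hα, z - α, mem_cos.1 hz, by abel⟩
  have haa : a ∈ cos H a := by simp [mem_cos, hH, zero_mem_stab]
  have hbb : b ∈ cos H b := by simp [mem_cos, hH, zero_mem_stab]
  have haU : a ∈ U := mem_union_left _ ha
  have hbU : b ∈ U := mem_union_right _ hb
  obtain ⟨D₁, hD₁, k1, k2, k3⟩ := key a b rfl ⟨a, mem_inter.2 ⟨ha, haa⟩⟩ ⟨b, mem_inter.2 ⟨hb, hbb⟩⟩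
  have case1 : ∀ α ∈ U, U ∩ cos H α ⊆ (A ∩ cos H a) ∪ (B ∩ cos H b) → False := by
    intro α hα hsub
    have s1 : (U + stab D₁) ∪ cos H α ⊆ U + H :=
      union_subset (add_subset_add_left hD₁) (hcosU α hα)
    have s2 : (U + stab D₁) ∩ cos H α ⊆
        ((A ∩ cos H a) + stab D₁) ∪ ((B ∩ cos H b) + stab D₁) := by
      intro z hz
      obtain ⟨hz1, hz2⟩ := mem_inter.1 hz
      obtain ⟨u, hu, g, hg, rfl⟩ := mem_add.1 hz1
      have hu' : u ∈ cos H α := by
        have := sub_mem_stab (mem_cos.1 hz2) (hD₁ hg)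
        rw [mem_cos]
        convert this using 1
        abel
      rcases mem_union.1 (hsub (mem_inter.2 ⟨hu, hu'⟩)) with h | h
      · exact mem_union_left _ (add_mem_add h hg)
      · exact mem_union_right _ (add_mem_add h hg)
    have c1 := card_le_card s1
    have c2 := (card_le_card s2).trans (card_union_le _ _)
    have c3 := card_union_add_card_inter (U + stab D₁) (cos H α)
    rw [card_cos] at c3
    omega
  have hB2 : (B ∩ cos H a).Nonempty := by
    by_contra h
    refine case1 a haU fun z hz => ?_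
    obtain ⟨hz1, hz2⟩ := mem_inter.1 hz
    rcases mem_union.1 hz1 with h' | h'
    · exact mem_union_left _ (mem_inter.2 ⟨h', hz2⟩)
    · exact absurd ⟨z, mem_inter.2 ⟨h', hz2⟩⟩ h
  have hA2 : (A ∩ cos H b).Nonempty := by
    by_contra h
    refine case1 b hbU fun z hz => ?_
    obtain ⟨hz1, hz2⟩ := mem_inter.1 hz
    rcases mem_union.1 hz1 with h' | h'
    · exact absurd ⟨z, mem_inter.2 ⟨h', hz2⟩⟩ h
    · exact mem_union_right _ (mem_inter.2 ⟨h', hz2⟩)
  have hab : Disjoint (cos H a) (cos H b) := by
    refine disjoint_left.2 fun w hwa hwb => case1 a haU fun z hz => ?_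
    obtain ⟨hz1, hz2⟩ := mem_inter.1 hz
    rcases mem_union.1 hz1 with h' | h'
    · exact mem_union_left _ (mem_inter.2 ⟨h', hz2⟩)
    · refine mem_union_right _ (mem_inter.2 ⟨h', mem_cos.2 ?_⟩)
      have := add_mem_stab (sub_mem_stab (mem_cos.1 hz2) (mem_cos.1 hwa)) (mem_cos.1 hwb)
      convert this using 1
      abel
  obtain ⟨D₂, hD₂, -, l2, l3⟩ := key b a (add_comm b a) hA2 hB2
  have s1 : U ∪ (cos H a ∪ cos H b) ⊆ U + H :=
    union_subset (subset_add_stab U C) (union_subset (hcosU a haU) (hcosU b hbU))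
  have s2 : U ∩ (cos H a ∪ cos H b) ⊆
      ((A ∩ cos H a) ∪ (B ∩ cos H b)) ∪ ((A ∩ cos H b) ∪ (B ∩ cos H a)) := by
    intro z hz
    simp only [hU, mem_inter, mem_union] at hz ⊢
    obtain ⟨h1 | h1, h2 | h2⟩ := hz
    · exact Or.inl (Or.inl ⟨h1, h2⟩)
    · exact Or.inr (Or.inl ⟨h1, h2⟩)
    · exact Or.inr (Or.inr ⟨h1, h2⟩)
    · exact Or.inl (Or.inr ⟨h1, h2⟩)
  have c1 := card_le_card s1
  have c2 := (card_le_card s2).trans (card_union_le _ _)
  have c3 := card_union_add_card_inter U (cos H a ∪ cos H b)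
  have c4 := card_union_le (A ∩ cos H a) (B ∩ cos H b)
  have c5 := card_union_le (A ∩ cos H b) (B ∩ cos H a)
  rw [card_union_of_disjoint hab, card_cos, card_cos] at c3
  omega

lemma stab_image_add (C : Finset G) (t : G) : stab (C.image (· + t)) = stab C := by
  ext g
  simp only [mem_stab, mem_image, forall_exists_index, and_imp, forall_apply_eq_imp_iff₂]
  refine forall₂_congr fun x _ => ⟨?_, fun h => ⟨g + x, h, by abel⟩⟩
  rintro ⟨y, hy, h⟩
  have : y = g + x := add_right_cancel (h.trans (add_assoc g x t).symm)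
  exact this ▸ hy

/-- **Kneser's theorem** in a finite abelian group. -/
theorem kneser (A B : Finset G) (hA : A.Nonempty) (hB : B.Nonempty) :
    #(A + stab (A + B)) + #(B + stab (A + B)) ≤ #(A + B) + #(stab (A + B)) := by
  change KN A B
  induction hn : #(A + B) using Nat.strong_induction_on generalizing A B with
  | _ n ihn =>
  induction hk : #(A + stab (A + B)) using Nat.strong_induction_on generalizing A B with
  | _ k ihk =>
  set K := stab (A + B) with hK
  set A' := A + K with hA'
  set B' := B + K with hB'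
  have hA'ne : A'.Nonempty := hA.mono (subset_add_stab _ _)
  have hsum : A' + B' = A + B := by
    have h1 : A + B + K = A + B := add_stab_eq Subset.rfl
    calc A' + B' = A + B + K + K := by rw [hA', hB']; ac_rfl
      _ = A + B := by rw [h1, h1]
  unfold KN
  rw [← hK, ← hA', ← hB']
  by_cases hcos : ∀ a ∈ A', ∀ a' ∈ A', a' - a ∈ K
  · obtain ⟨a, ha⟩ := hA'ne
    have h1 : #A' ≤ #K := by
      rw [← card_cos K a]
      exact card_le_card fun a' ha' => mem_cos.2 (hcos a ha a' ha')
    have h2 : #B' ≤ #(A' + B') := card_le_card_add_left ⟨a, ha⟩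
    rw [hsum] at h2
    omega
  push Not at hcos
  obtain ⟨a, ha, a', ha', haa⟩ := hcos
  have hnb : a' - a ∉ stab B' := fun h => haa (by
    have := stab_subset_stab_add_right A' B' h
    rwa [hsum] at this)
  rw [mem_stab] at hnb
  push Not at hnb
  obtain ⟨b, hb, hbb⟩ := hnb
  set B'' := B'.image (· + (a - b)) with hB''
  have hsum' : A' + B'' = (A + B).image (· + (a - b)) := by
    rw [← hsum]
    ext z
    simp only [hB'', mem_add (s := A'), mem_image]
    constructor
    · rintro ⟨u, hu, _, ⟨v, hv, rfl⟩, rfl⟩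
      exact ⟨u + v, ⟨u, hu, v, hv, rfl⟩, by abel⟩
    · rintro ⟨_, ⟨u, hu, v, hv, rfl⟩, rfl⟩
      exact ⟨u, hu, _, ⟨v, hv, rfl⟩, by abel⟩
  have hc : #(A' + B'') = #(A + B) := by
    rw [hsum', card_image_of_injective _ (add_left_injective _)]
  have hs : stab (A' + B'') = K := by rw [hsum', stab_image_add]
  have hcB : #B'' = #B' := card_image_of_injective _ (add_left_injective _)
  have := kneser_aux A' B'' (fun X Y hX hY h => by
      rcases h with h | ⟨h, h'⟩
      · exact ihn _ (by omega) X Y hX hY rfl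
      · exact ihk _ (by omega) X Y hX hY (by omega) rfl)
    (by rw [hs]; exact stab_subset_stab_add_stab _ _)
    (by rw [hs, hB'', stab_image_add]; exact stab_subset_stab_add_stab _ _)
    ⟨a, mem_inter.2 ⟨ha, mem_image.2 ⟨b, hb, by abel⟩⟩⟩
    (fun h => by
      obtain ⟨v, hv, hv'⟩ := mem_image.1 (h ha')
      refine hbb ?_
      convert hv using 1
      rw [← hv']
      abel)
  rw [hc, hs, hcB] at this
  exact this

/-- Numerical form of Kneser's theorem: `|A + B| ≥ (i + j - 1) d` for a divisor `d` of `|G|`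
with `i d ≥ |A|` and `j d ≥ |B|`. -/
theorem exists_dvd_card_le (A B : Finset G) (hA : A.Nonempty) (hB : B.Nonempty) :
    ∃ d i j : ℕ, d ∣ Fintype.card G ∧ #A ≤ i * d ∧ #B ≤ j * d ∧ (i + j) * d ≤ #(A + B) + d := by
  obtain ⟨i, hi⟩ := card_stab_dvd (A + B) _ (stab_subset_stab_add_stab A (A + B))
  obtain ⟨j, hj⟩ := card_stab_dvd (A + B) _ (stab_subset_stab_add_stab B (A + B))
  have h := kneser A B hA hB
  have e1 := card_le_card (subset_add_stab A (A + B))
  have e2 := card_le_card (subset_add_stab B (A + B))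
  refine ⟨#(stab (A + B)), i, j, ?_, by rw [mul_comm]; omega, by rw [mul_comm]; omega, ?_⟩
  · exact card_stab_dvd (A + B) univ fun g _ => mem_stab.2 fun x _ => mem_univ _
  · rw [add_mul, mul_comm i, mul_comm j]
    omega

end Pool.Agent.Lib.Kneser
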